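import Mathlib

namespace Pool.Agent.H.MP_2ca583_ag

open Polynomial

variable {k : Type*} [Field k]

lemma iter_const_mul (c : k[X]) (hc : derivative c = 0) (n : ℕ) (q : k[X]) :
    derivative^[n] (c * q) = c * derivative^[n] q := by
  induction n generalizing q with
  | zero => rfl
  | succ n ih =>
    rw [Function.iterate_succ_apply, Function.iterate_succ_apply, derivative_mul, hc, zero_mul,
      zero_add, ih]

lemma iter_add (n : ℕ) (q r : k[X]) :
    derivative^[n] (q + r) = derivative^[n] q + derivative^[n] r := by
  induction n generalizing q r with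
  | zero => rfl
  | succ n ih => simp only [Function.iterate_succ_apply, derivative_add, ih]

lemma der_pow_p (p : ℕ) [CharP k p] (a : k[X]) : derivative (a ^ p) = 0 := by
  rw [derivative_pow]
  simp

lemma wilson (p : ℕ) [hp : Fact p.Prime] [CharP k p] : ((p - 1).factorial : k) = -1 := by
  have h := congrArg (ZMod.castHom (dvd_refl p) k) (ZMod.wilsons_lemma p)
  rwa [map_natCast, map_neg, map_one] at h

lemma hoch (p : ℕ) [hp : Fact p.Prime] [CharP k p] [IsAlgClosed k] (a : k[X]) :
    derivative^[p - 1] (a ^ (p - 1) * derivative a) = -(derivative a) ^ p := by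
  have h0 : p ≠ 0 := hp.out.ne_zero
  have hs := IsAlgClosed.splits a
  unfold Polynomial.Splits at hs
  induction hs using Submonoid.closure_induction with
  | mem x hx =>
    rcases hx with ⟨c, rfl⟩ | ⟨c, rfl⟩
    · simp [h0]
    · simp only [derivative_add, derivative_X, derivative_C, add_zero, mul_one, one_pow]
      rw [iterate_derivative_X_add_pow, Nat.sub_self, pow_zero, Nat.descFactorial_self,
        nsmul_one, ← C_eq_natCast, wilson]
      simp
  | one => simp [h0]
  | mul a b _ _ ha hb =>
    have e : ∀ z : k[X], z ^ p = z ^ (p - 1) * z := fun z => (pow_sub_one_mul h0 z).symm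
    have : (a * b) ^ (p - 1) * derivative (a * b) =
        b ^ p * (a ^ (p - 1) * derivative a) + a ^ p * (b ^ (p - 1) * derivative b) := by
      rw [derivative_mul, e a, e b, mul_pow]
      ring
    rw [this, iter_add, iter_const_mul _ (der_pow_p p b), iter_const_mul _ (der_pow_p p a), ha, hb,
      derivative_mul, add_pow_char, mul_pow, mul_pow]
    ring

lemma cartier (p m : ℕ) [hp : Fact p.Prime] [CharP k p] [IsAlgClosed k] (hm : p = 2 * m + 1)
    (h : k) (h2 : 2 * h = 1) (f A B u : k[X]) (hf : f ≠ 0)
    (hA : derivative A = u * B) (hB : derivative B * f + C h * B * derivative f = u * A)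
    (hN : A * A - f * B * B ≠ 0) :
    derivative^[p - 1] (u * f ^ m) = -u ^ p := by
  have h0 : p ≠ 0 := hp.out.ne_zero
  have hpk : (2 * m + 1 : k) = 0 := by
    have := CharP.cast_eq_zero k p
    rw [hm] at this
    push_cast at this
    exact this
  have hh : ((m + 1 : ℕ) : k) = h := by
    push_cast
    linear_combination h * hpk - (m + 1) * h2
  set G := u * f ^ m with hG
  set Bt := B * f ^ (m + 1) with hBt
  have d1 : derivative Bt = G * A := by
    rw [hBt, derivative_mul, derivative_pow, hh, Nat.add_sub_cancel, hG]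
    linear_combination f ^ m * hB
  have d2 : f ^ p * derivative A = G * Bt := by
    rw [hA, hm, hG, hBt]
    ring
  set G1 := derivative^[p - 1] G with hG1
  have key : (Bt * Bt - A * A * f ^ p) ^ p * (G1 * (f ^ p) ^ m + G ^ p) = 0 := by
    apply Polynomial.funext
    intro x
    obtain ⟨y, hy⟩ := IsAlgClosed.exists_eq_mul_self (f.eval x)
    set Y := y ^ p with hY
    have hY2 : Y * Y = (f.eval x) ^ p := by rw [hY, hy, mul_pow]
    set a := Bt + C Y * A with ha
    set E := C (Y * Y) - f ^ p with hE
    have dE : derivative E = 0 := by rw [hE, derivative_sub, der_pow_p, derivative_C, sub_zero]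
    have eE : E.eval x = 0 := by simp [hE, hY2]
    have d3 : C Y * derivative a = G * a + E * derivative A := by
      rw [ha, hE, derivative_add, d1, derivative_C_mul, C_mul]
      linear_combination d2
    have d4 : C Y * (a ^ (p - 1) * derivative a) =
        a ^ p * G + E * (a ^ (p - 1) * derivative A) := by
      rw [← pow_sub_one_mul h0 a]
      linear_combination a ^ (p - 1) * d3
    have d5 := congrArg (derivative^[p - 1]) d4
    rw [iter_const_mul _ derivative_C, iter_add, iter_const_mul _ (der_pow_p p a),
      iter_const_mul _ dE, hoch, ← hG1] at d5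
    have d6 := congrArg (eval x) d5
    have d7 := congrArg (eval x) d3
    simp only [eval_mul, eval_add, eval_neg, eval_pow, eval_C, eE, zero_mul, add_zero] at d6 d7
    have d8 : (eval x a) ^ p * (eval x G1 * (eval x f ^ p) ^ m + eval x G ^ p) = 0 := by
      have e1 : (Y * eval x (derivative a)) ^ p = (eval x G * eval x a) ^ p := by rw [d7]
      rw [mul_pow, mul_pow] at e1
      have e2 : Y ^ p = (Y * Y) ^ m * Y := by
        conv_lhs => rw [hm]
        ring
      rw [← hY2]
      linear_combination (-(Y * Y) ^ m) * d6 - e1 + eval x (derivative a) ^ p * e2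
    have d9 : eval x (Bt * Bt - A * A * f ^ p) = eval x a * (eval x Bt - Y * eval x A) := by
      simp only [ha, eval_mul, eval_add, eval_sub, eval_pow, eval_C, ← hY2]
      ring
    rw [eval_mul, eval_pow, d9, mul_pow, eval_zero]
    simp only [eval_mul, eval_add, eval_pow]
    linear_combination (eval x Bt - Y * eval x A) ^ p * d8
  have n1 : Bt * Bt - A * A * f ^ p ≠ 0 := by
    have : Bt * Bt - A * A * f ^ p = -(f ^ p * (A * A - f * B * B)) := by
      rw [hBt, hm]
      ring
    rw [this]
    exact neg_ne_zero.2 (mul_ne_zero (pow_ne_zero _ hf) hN)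
  have k2 := (mul_eq_zero.1 key).resolve_left (pow_ne_zero _ n1)
  have k3 : (f ^ p) ^ m * (G1 + u ^ p) = 0 := by
    rw [hG, mul_pow, pow_right_comm f m p] at k2
    linear_combination k2
  have k4 := (mul_eq_zero.1 k3).resolve_left (pow_ne_zero _ (pow_ne_zero _ hf))
  linear_combination k4

/-- Solutions of a semilinear equation spanning a space of dimension `< g`. -/
lemma count (p g : ℕ) [hp : Fact p.Prime] [CharP k p] [IsAlgClosed k] (L : k[X] →ₗ[k] k[X])
    (H : Submodule k k[X]) [Module.Finite k H] (hH : Module.finrank k H < g) :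
    {u : k[X] | u ∈ H ∧ L u = u ^ p}.Finite ∧ {u : k[X] | u ∈ H ∧ L u = u ^ p}.ncard < p ^ g := by
  classical
  set S := {u : k[X] | u ∈ H ∧ L u = u ^ p} with hS
  obtain ⟨b, hbS, hsp, hli⟩ := exists_linearIndependent k S
  let v : b → H := fun i => ⟨i.1, (hbS i.2).1⟩
  have hv : LinearIndependent k v := LinearIndependent.of_comp H.subtype hli
  haveI : Finite b := hv.finite
  haveI : Fintype b := Fintype.ofFinite b
  have hc : Fintype.card b ≤ Module.finrank k H := hv.fintype_card_le_finrank
  set T : Finset k := (X ^ p - X : k[X]).roots.toFinset with hT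
  have hne : (X ^ p - X : k[X]) ≠ 0 := FiniteField.X_pow_card_sub_X_ne_zero k hp.out.one_lt
  have hTc : T.card ≤ p := by
    refine (Multiset.toFinset_card_le _).trans ((card_roots' _).trans ?_)
    rw [FiniteField.X_pow_card_sub_X_natDegree_eq k hp.out.one_lt]
  have sub : S ⊆ ((Fintype.piFinset fun _ : b => T).image fun c => ∑ i : b, c i • (i : k[X]) : Finset k[X]) := by
    intro w hw
    have : w ∈ Submodule.span k (Set.range (Subtype.val : b → k[X])) := by
      rw [Subtype.range_coe, hsp]
      exact Submodule.subset_span hw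
    obtain ⟨c, hcw⟩ := (Submodule.mem_span_range_iff_exists_fun k).1 this
    simp only [Finset.coe_image, Set.mem_image, Finset.mem_coe, Fintype.mem_piFinset]
    refine ⟨c, ?_, hcw⟩
    have e1 : L w = ∑ i : b, c i • (i : k[X]) ^ p := by
      rw [← hcw, map_sum]
      exact Finset.sum_congr rfl fun i _ => by rw [map_smul, (hbS i.2).2]
    have e2 : w ^ p = ∑ i : b, (c i) ^ p • (i : k[X]) ^ p := by
      rw [← hcw, sum_pow_char]
      exact Finset.sum_congr rfl fun i _ => by rw [_root_.smul_pow]
    choose t ht using fun i => IsAlgClosed.exists_pow_nat_eq (c i ^ p - c i) hp.out.pos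
    have e3 : (∑ i : b, t i • (i : k[X])) ^ p = 0 := by
      rw [sum_pow_char]
      have : ∑ i : b, (t i • (i : k[X])) ^ p =
          ∑ i : b, (c i) ^ p • (i : k[X]) ^ p - ∑ i : b, c i • (i : k[X]) ^ p := by
        rw [← Finset.sum_sub_distrib]
        exact Finset.sum_congr rfl fun i _ => by rw [_root_.smul_pow, ht, sub_smul]
      rw [this, ← e1, ← e2, hw.2, sub_self]
    have e4 := Fintype.linearIndependent_iff.1 hli t (pow_eq_zero_iff hp.out.ne_zero |>.1 e3)
    intro i
    have := ht i
    rw [e4 i, zero_pow hp.out.ne_zero] at this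
    rw [hT, Multiset.mem_toFinset, mem_roots hne]
    simp [← this]
  refine ⟨(Finset.finite_toSet _).subset sub, ?_⟩
  refine (Set.ncard_le_ncard sub (Finset.finite_toSet _)).trans_lt ?_
  rw [Set.ncard_coe_finset]
  refine Finset.card_image_le.trans_lt ?_
  rw [Fintype.card_piFinset, Finset.prod_const, Finset.card_univ]
  calc T.card ^ Fintype.card b ≤ p ^ Fintype.card b := Nat.pow_le_pow_left hTc _
    _ < p ^ g := Nat.pow_lt_pow_right hp.out.one_lt (hc.trans_lt hH)

end Pool.Agent.H.MP_2ca583_ag
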