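import Mathlib
import Pool.Agent.H.MP_2ca583_ag.Cart

namespace Pool.Agent.H.MP_2ca583_ag

open Polynomial QuadraticAlgebra

variable {k : Type*} [Field k]

abbrev Rg (f : k[X]) := QuadraticAlgebra k[X] f 0

lemma nrm_ne {f : k[X]} (ho : Odd f.natDegree) (A B : k[X]) (h : A ≠ 0 ∨ B ≠ 0) :
    A * A - f * B * B ≠ 0 := by
  have hf : f ≠ 0 := by
    rintro rfl
    simp at ho
  intro e
  have e' : A * A = f * B * B := sub_eq_zero.1 e
  by_cases hB : B = 0
  · rcases h with h | h
    · rw [hB, mul_zero] at e'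
      exact h (mul_self_eq_zero.1 e')
    · exact h hB
  have hA : A ≠ 0 := by
    rintro rfl
    rw [zero_mul] at e'
    exact mul_ne_zero (mul_ne_zero hf hB) hB e'.symm
  have := congrArg natDegree e'
  rw [natDegree_mul hA hA, natDegree_mul (mul_ne_zero hf hB) hB, natDegree_mul hf hB] at this
  obtain ⟨c, hc⟩ := ho
  omega

lemma ne_iff {f : k[X]} {a : Rg f} (h : a ≠ 0) : a.re ≠ 0 ∨ a.im ≠ 0 := by
  by_contra hc
  push Not at hc
  exact h (by ext1 <;> simp [hc.1, hc.2])

lemma norm_ne {f : k[X]} (ho : Odd f.natDegree) {a : Rg f} (h : a ≠ 0) : a.norm ≠ 0 := by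
  have := nrm_ne ho _ _ (ne_iff h)
  rw [norm_def]
  simpa using this

lemma dom {f : k[X]} (ho : Odd f.natDegree) : IsDomain (Rg f) := by
  have : NoZeroDivisors (Rg f) := ⟨fun {a b} hab => by
    by_contra hc
    push Not at hc
    have := congrArg QuadraticAlgebra.norm hab
    rw [map_mul, QuadraticAlgebra.norm_zero] at this
    exact mul_ne_zero (norm_ne ho hc.1) (norm_ne ho hc.2) this⟩
  exact NoZeroDivisors.to_isDomain _

lemma charR (p : ℕ) [CharP k p] (f : k[X]) : CharP (Rg f) p :=
  charP_of_injective_algebraMap (R := k[X]) algebraMap_injective p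

noncomputable def D (h : k) {f : k[X]} (a : Rg f) : Rg f :=
  ⟨derivative a.im * f + C h * a.im * derivative f, derivative a.re⟩

lemma D_add (h : k) {f : k[X]} (a b : Rg f) : D h (a + b) = D h a + D h b := by
  ext1 <;> simp [D]
  ring

lemma D_mul {h : k} (h2 : 2 * h = 1) {f : k[X]} (a b : Rg f) :
    D h (a * b) = D h a * b + a * D h b := by
  have h3 : 2 * C h = (1 : k[X]) := by
    have := congrArg (C : k → k[X]) h2
    simpa [map_ofNat] using this
  ext1
  · simp [D]
    ring
  · simp [D]
    linear_combination (-(a.im * b.im * derivative f)) * h3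

lemma D_pow {h : k} (h2 : 2 * h = 1) {f : k[X]} (a w : Rg f) (hw : D h a = a * w) (n : ℕ) :
    D h (a ^ n) = n * a ^ n * w := by
  induction n with
  | zero => ext1 <;> simp [D]
  | succ n ih =>
    rw [pow_succ, D_mul h2, ih, hw]
    push_cast
    ring

lemma D_pow' {h : k} (h2 : 2 * h = 1) {f : k[X]} (a : Rg f) (n : ℕ) :
    D h (a ^ (n + 1)) = (n + 1 : ℕ) * a ^ n * D h a := by
  induction n with
  | zero => simp
  | succ n ih =>
    rw [pow_succ, D_mul h2, ih]
    push_cast
    ring

lemma D_pow_p (p : ℕ) [hp : Fact p.Prime] [CharP k p] {h : k} (h2 : 2 * h = 1) {f : k[X]}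
    (a : Rg f) : D h (a ^ p) = 0 := by
  have := charR p f
  have := D_pow' h2 a (p - 1)
  rw [Nat.sub_add_cancel hp.out.one_le, CharP.cast_eq_zero] at this
  simpa using this

lemma om_pow (f : k[X]) (m : ℕ) : (omega : Rg f) ^ (2 * m + 1) = ⟨0, f ^ m⟩ := by
  induction m with
  | zero => simp; rfl
  | succ m ih =>
    rw [show 2 * (m + 1) + 1 = 2 * m + 1 + 1 + 1 by ring, pow_succ, pow_succ, ih]
    ext1 <;> simp
    ring

lemma pow_p_eq (p m : ℕ) [hp : Fact p.Prime] [CharP k p] (hm : p = 2 * m + 1) {f : k[X]}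
    (a : Rg f) : a ^ p = ⟨a.re ^ p, a.im ^ p * f ^ m⟩ := by
  have := charR p f
  have e : a = algebraMap k[X] (Rg f) a.re + algebraMap k[X] (Rg f) a.im * omega := by
    ext1 <;> simp
  have e2 : (omega : Rg f) ^ p = ⟨0, f ^ m⟩ := by rw [hm, om_pow]
  conv_lhs => rw [e, add_pow_char, mul_pow, ← map_pow, ← map_pow, e2]
  ext1 <;> simp [-map_pow]

lemma dvd_of_pow (p m : ℕ) (hm : m < p) {f : k[X]} (hf : Squarefree f) (c B : k[X])
    (hc : c ≠ 0) (h : c ^ p ∣ B ^ p * f ^ m) : c ∣ B := by
  induction c using UniqueFactorizationMonoid.induction_on_prime generalizing B with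
  | h₁ => exact absurd rfl hc
  | h₂ x hx => exact hx.dvd
  | h₃ c q hc0 hq ih =>
    have h1 : q ^ p ∣ B ^ p * f ^ m := (pow_dvd_pow_of_dvd (dvd_mul_right q c) p).trans h
    have hB : q ∣ B := by
      by_contra hn
      have h2 : q ^ p ∣ f ^ m :=
        hq.pow_dvd_of_dvd_mul_left p (fun hh => hn (hq.dvd_of_dvd_pow hh)) h1
      have h3 : q ∣ f := hq.dvd_of_dvd_pow ((dvd_pow_self q (by omega)).trans h2)
      obtain ⟨f1, rfl⟩ := h3
      have h4 : ¬ q ∣ f1 := fun hh => hq.not_unit (hf q (mul_dvd_mul_left q hh))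
      rw [mul_pow] at h2
      have h5 : q ^ p ∣ q ^ m :=
        hq.pow_dvd_of_dvd_mul_right p (fun hh => h4 (hq.dvd_of_dvd_pow hh)) h2
      have := (pow_dvd_pow_iff hq.ne_zero hq.not_unit).1 h5
      omega
    obtain ⟨B1, rfl⟩ := hB
    refine mul_dvd_mul_left q (ih B1 hc0 ?_)
    rw [mul_pow, mul_pow, mul_assoc] at h
    exact (mul_dvd_mul_iff_left (pow_ne_zero p hq.ne_zero)).1 h

lemma root_closed (p m : ℕ) [hp : Fact p.Prime] [CharP k p] (hm : p = 2 * m + 1) {f : k[X]}
    (ho : Odd f.natDegree) (hf : Squarefree f) (n d : Rg f) (hd : d ≠ 0) (h : d ^ p ∣ n ^ p) :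
    d ∣ n := by
  have := dom ho
  have hc := norm_ne ho hd
  have h1 : algebraMap k[X] (Rg f) (d.norm ^ p) ∣ (n * star d) ^ p := by
    rw [map_pow, algebraMap_norm_eq_mul_star, mul_pow, mul_pow]
    exact mul_dvd_mul_right h _
  rw [algebraMap_dvd_iff, pow_p_eq p m hm] at h1
  have h2 : algebraMap k[X] (Rg f) d.norm ∣ n * star d := by
    rw [algebraMap_dvd_iff]
    refine ⟨dvd_of_pow p 0 hp.out.pos hf _ _ hc (by simpa using h1.1),
      dvd_of_pow p m (by omega) hf _ _ hc h1.2⟩
  rw [algebraMap_norm_eq_mul_star] at h2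
  exact (mul_dvd_mul_iff_right (star_ne_zero.2 hd)).1 h2

lemma pth_root (p : ℕ) [hp : Fact p.Prime] [CharP k p] [IsAlgClosed k] (q : k[X])
    (hq : derivative q = 0) : ∃ r : k[X], r ^ p = q := by
  refine ⟨(contract p q).map (frobeniusEquiv k p).symm, ?_⟩
  rw [← map_frobenius_expand p, map_expand, Polynomial.map_map]
  have : (frobenius k p).comp ((frobeniusEquiv k p).symm : k →+* k) = RingHom.id k := by
    ext x
    simp
  rw [this, Polynomial.map_id, expand_contract p hq hp.out.ne_zero]

lemma half (p m : ℕ) [CharP k p] (hm : p = 2 * m + 1) : 2 * ((m + 1 : ℕ) : k) = 1 := by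
  have := CharP.cast_eq_zero k p
  rw [hm] at this
  push_cast at this ⊢
  linear_combination this

lemma kerD (p m : ℕ) [hp : Fact p.Prime] [CharP k p] [IsAlgClosed k] (hm : p = 2 * m + 1)
    {f : k[X]} (e : Rg f) (he : D ((m + 1 : ℕ) : k) e = 0) :
    ∃ b : Rg f, e * omega ^ p = b ^ p := by
  have h1 : derivative e.re = 0 := congrArg QuadraticAlgebra.im he
  have h2 : derivative e.im * f + C ((m + 1 : ℕ) : k) * e.im * derivative f = 0 :=
    congrArg QuadraticAlgebra.re he
  have h3 : derivative (e.im * f ^ (m + 1)) = 0 := by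
    rw [derivative_mul, derivative_pow, Nat.add_sub_cancel]
    linear_combination f ^ m * h2
  obtain ⟨A, hA⟩ := pth_root p _ h1
  obtain ⟨B, hB⟩ := pth_root p _ h3
  refine ⟨⟨B, A⟩, ?_⟩
  have e2 : (omega : Rg f) ^ p = ⟨0, f ^ m⟩ := by rw [hm, om_pow]
  rw [pow_p_eq p m hm ⟨B, A⟩, e2]
  ext1 <;> simp [hA, hB]
  ring

lemma logD (p m g : ℕ) [hp : Fact p.Prime] [CharP k p] [IsAlgClosed k] (hm : p = 2 * m + 1)
    {f : k[X]} (hg : f.natDegree = 2 * g + 1) (e w : Rg f) (he : e ≠ 0)
    (hw : D ((m + 1 : ℕ) : k) e = e * w) :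
    w.im = 0 ∧ w.re.degree < g ∧ derivative^[p - 1] (w.re * f ^ m) = -w.re ^ p := by
  have ho : Odd f.natDegree := ⟨g, hg⟩
  have hf : f ≠ 0 := by
    rintro rfl
    simp at ho
  have h2 := half (k := k) p m hm
  generalize ((m + 1 : ℕ) : k) = h at *
  have h3 : 2 * C h = (1 : k[X]) := by
    have := congrArg (C : k → k[X]) h2
    simpa [map_ofNat] using this
  have hN := nrm_ne ho _ _ (ne_iff he)
  have hne := ne_iff he
  have a1 : derivative e.re = e.re * w.im + e.im * w.re := by
    have := congrArg QuadraticAlgebra.im hw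
    simpa [D] using this
  have a2 : derivative e.im * f + C h * e.im * derivative f = e.re * w.re + f * e.im * w.im := by
    have := congrArg QuadraticAlgebra.re hw
    simpa [D] using this
  generalize e.re = A at *
  generalize e.im = B at *
  generalize w.re = u at *
  generalize w.im = t at *
  have ht : t = 0 := by
    by_contra ht
    have n1 : derivative (A * A - f * B * B) = (2 * t) * (A * A - f * B * B) := by
      simp only [derivative_sub, derivative_mul]
      linear_combination 2 * A * a1 - 2 * B * a2 + B * B * derivative f * h3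
    have n2 : (2 : k[X]) * t ≠ 0 := by
      refine mul_ne_zero ?_ ht
      intro h0
      rw [h0, zero_mul] at h3
      exact zero_ne_one h3
    have n3 := degree_derivative_lt hN
    rw [n1, mul_comm (2 * t)] at n3
    exact absurd n3 (not_lt.2 (degree_le_mul_left _ n2))
  subst ht
  have b1 : derivative A = u * B := by linear_combination a1
  have b2 : derivative B * f + C h * B * derivative f = u * A := by linear_combination a2
  refine ⟨rfl, ?_, cartier p m hm h h2 f A B u hf b1 b2 hN⟩
  by_cases hu : u = 0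
  · rw [hu, degree_zero]
    exact WithBot.bot_lt_coe _
  have hB : B ≠ 0 := by
    rintro rfl
    simp only [derivative_zero, zero_mul, mul_zero, add_zero] at b2
    rcases hne with h | h
    · exact mul_ne_zero hu h b2.symm
    · exact h rfl
  have hA : A ≠ 0 := by
    rintro rfl
    rw [derivative_zero] at b1
    exact mul_ne_zero hu hB b1.symm
  have c1 : u.natDegree + B.natDegree < A.natDegree := by
    rw [← natDegree_mul hu hB, ← b1]
    apply natDegree_derivative_lt
    intro h0
    rw [derivative_of_natDegree_zero h0] at b1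
    exact mul_ne_zero hu hB b1.symm
  have c2 : u.natDegree + A.natDegree ≤ B.natDegree + 2 * g := by
    rw [← natDegree_mul hu hA, ← b2]
    refine natDegree_add_le_of_degree_le ?_ ?_
    · by_cases h0 : B.natDegree = 0
      · rw [derivative_of_natDegree_zero h0]
        simp
      · have := natDegree_derivative_lt h0
        refine natDegree_mul_le.trans ?_
        omega
    · refine natDegree_mul_le.trans ?_
      have := natDegree_derivative_le f
      have := natDegree_C_mul_le h B
      omega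
  rw [degree_eq_natDegree hu]
  exact_mod_cast (by omega : u.natDegree < g)

end Pool.Agent.H.MP_2ca583_ag
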