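import Mathlib
import Pool.Agent.H.MP_2ca583_ag.Ring

namespace Pool.Agent.H.MP_2ca583_ag

open Polynomial QuadraticAlgebra nonZeroDivisors

variable {k : Type*} [Field k]

lemma pow_mem {R : Type*} [CommRing R] [IsDomain R] {I : FractionalIdeal R⁰ (FractionRing R)}
    {x : FractionRing R} (hx : x ∈ I) (n : ℕ) : x ^ n ∈ I ^ n := by
  rw [← FractionalIdeal.mem_coe, FractionalIdeal.coe_pow]
  exact Submodule.pow_mem_pow _ hx n

lemma frac {R : Type*} [CommRing R] [IsDomain R] (x : FractionRing R) :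
    ∃ n d : R, d ≠ 0 ∧ x * algebraMap R (FractionRing R) d = algebraMap R (FractionRing R) n := by
  obtain ⟨n, d, hd, rfl⟩ := IsFractionRing.div_surjective (A := R) x
  have hd0 : d ≠ 0 := nonZeroDivisors.ne_zero hd
  refine ⟨n, d, hd0, div_mul_cancel₀ _ ?_⟩
  simpa using hd0

section
variable (p m : ℕ) [hp : Fact p.Prime] [CharP k p] (hm : p = 2 * m + 1) {f : k[X]}
  (ho : Odd f.natDegree) (hf : Squarefree f) [IsDomain (Rg f)]
include hm ho hf

lemma le_one (J : (FractionalIdeal (Rg f)⁰ (FractionRing (Rg f)))ˣ) (hJ : J ^ p = 1) :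
    (J : FractionalIdeal (Rg f)⁰ (FractionRing (Rg f))) ≤ 1 := by
  intro j hj
  have h1 := pow_mem hj p
  rw [← Units.val_pow_eq_pow_val, hJ, Units.val_one, FractionalIdeal.mem_one_iff] at h1
  obtain ⟨r, hr⟩ := h1
  obtain ⟨n, d, hd, e⟩ := frac j
  have h2 : n ^ p = d ^ p * r := by
    apply IsFractionRing.injective (Rg f) (FractionRing (Rg f))
    rw [map_mul, map_pow, map_pow, hr, ← e]
    ring
  obtain ⟨s, rfl⟩ := root_closed p m hm ho hf n d hd ⟨r, h2⟩
  refine (FractionalIdeal.mem_one_iff _).2 ⟨s, ?_⟩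
  have hd' : algebraMap (Rg f) (FractionRing (Rg f)) d ≠ 0 := by simpa using hd
  rw [map_mul, mul_comm j] at e
  exact (mul_left_cancel₀ hd' e).symm

lemma tf (J : (FractionalIdeal (Rg f)⁰ (FractionRing (Rg f)))ˣ) (hJ : J ^ p = 1) : J = 1 := by
  apply Units.ext
  refine le_antisymm (le_one p m hm ho hf J hJ) ?_
  have h1 := le_one p m hm ho hf J⁻¹ (by rw [inv_pow, hJ, inv_one])
  calc ((1 : (FractionalIdeal (Rg f)⁰ (FractionRing (Rg f)))ˣ) :
        FractionalIdeal (Rg f)⁰ (FractionRing (Rg f))) = J * (J⁻¹ : _ˣ) := by simp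
    _ ≤ J * 1 := by gcongr
    _ = J := mul_one _

end

lemma rep {R : Type*} [CommRing R] [IsDomain R] (p : ℕ) (hp : p ≠ 0) (c : ClassGroup R)
    (hc : c ^ p = 1) : ∃ (I : (FractionalIdeal R⁰ (FractionRing R))ˣ) (e : R)
      (x : (FractionRing R)ˣ), ClassGroup.mk (FractionRing R) I = c ∧
      (x : FractionRing R) = algebraMap R (FractionRing R) e ∧
      I ^ p = toPrincipalIdeal R (FractionRing R) x := by
  revert hc
  refine ClassGroup.induction (FractionRing R) (fun I hc => ?_) c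
  rw [← map_pow, ← map_one (ClassGroup.mk (FractionRing R)), eq_comm, ClassGroup.mk_eq_mk] at hc
  obtain ⟨x, hx⟩ := hc
  obtain ⟨n, d, hd, e⟩ := frac (x : FractionRing R)
  have hd' : algebraMap R (FractionRing R) d ≠ 0 := by simpa using hd
  refine ⟨I * toPrincipalIdeal R _ (Units.mk0 _ hd'), n * d ^ (p - 1), x * (Units.mk0 _ hd') ^ p,
    ?_, ?_, ?_⟩
  · exact (ClassGroup.mk_eq_mk.2 ⟨_, rfl⟩).symm
  · rw [map_mul, map_pow, ← e, Units.val_mul, Units.val_pow_eq_pow_val, Units.val_mk0,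
      ← mul_pow_sub_one hp, mul_assoc]
  · rw [mul_pow, ← hx, one_mul, map_mul, map_pow]

lemma dvd_D (p : ℕ) [hp : Fact p.Prime] [CharP k p] {h : k} (h2 : 2 * h = 1) {f : k[X]}
    [IsDomain (Rg f)] (I : (FractionalIdeal (Rg f)⁰ (FractionRing (Rg f)))ˣ) (e : Rg f)
    (x : (FractionRing (Rg f))ˣ) (hx : (x : FractionRing (Rg f)) = algebraMap _ _ e)
    (hI : I ^ p = toPrincipalIdeal _ _ x) : ∃ w : Rg f, D h e = e * w := by
  have := charR p f
  have : CharP (FractionRing (Rg f)) p :=
    charP_of_injective_algebraMap (IsFractionRing.injective (Rg f) _) p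
  have inj := IsFractionRing.injective (Rg f) (FractionRing (Rg f))
  have hI' : (I : FractionalIdeal (Rg f)⁰ (FractionRing (Rg f))) ^ p =
      FractionalIdeal.spanSingleton _ (algebraMap _ _ e) := by
    rw [← Units.val_pow_eq_pow_val, hI, coe_toPrincipalIdeal, hx]
  have h1 : (1 : FractionRing (Rg f)) ∈
      (I : FractionalIdeal (Rg f)⁰ (FractionRing (Rg f))) * (I⁻¹ : _ˣ) := by
    rw [Units.mul_inv]
    exact FractionalIdeal.one_mem_one _
  have key : ∀ z ∈ (I : FractionalIdeal (Rg f)⁰ (FractionRing (Rg f))) * (I⁻¹ : _ˣ),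
      ∃ w : Rg f, algebraMap (Rg f) (FractionRing (Rg f)) (D h e) * z ^ p =
        algebraMap _ _ (e * w) := by
    intro z hz
    refine FractionalIdeal.mul_induction_on hz ?_ ?_
    · intro b hb c hc
      have b1 := pow_mem hb p
      rw [hI', FractionalIdeal.mem_spanSingleton] at b1
      obtain ⟨r, hr⟩ := b1
      rw [Algebra.smul_def, ← map_mul] at hr
      have c1 := FractionalIdeal.mul_mem_mul
        (hI' ▸ FractionalIdeal.mem_spanSingleton_self _ (algebraMap _ _ e)) (pow_mem hc p)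
      rw [← mul_pow, Units.mul_inv, one_pow, FractionalIdeal.mem_one_iff] at c1
      obtain ⟨s, hs⟩ := c1
      obtain ⟨n, d, hd, e1⟩ := frac b
      have e2 : r * e * d ^ p = n ^ p := by
        apply inj
        rw [map_mul, hr, map_pow, map_pow, ← e1, mul_pow]
      have e3 := congrArg (D h) e2
      rw [D_mul h2, D_pow_p p h2, D_pow_p p h2, mul_zero, add_zero] at e3
      have e4 := (mul_eq_zero.1 e3).resolve_right (pow_ne_zero _ hd)
      rw [D_mul h2] at e4
      refine ⟨-(D h r * s), ?_⟩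
      have e5 : e * -(D h r * s) = D h e * r * s := by linear_combination (-s) * e4
      rw [e5, mul_pow, ← hr, map_mul, map_mul, map_mul, hs]
      ring
    · rintro y z ⟨w1, a1⟩ ⟨w2, a2⟩
      refine ⟨w1 + w2, ?_⟩
      rw [add_pow_char, mul_add, a1, a2, mul_add, map_add]
  obtain ⟨w, hw⟩ := key 1 h1
  exact ⟨w, inj (by rw [← hw, one_pow, mul_one])⟩

theorem bound (p m g : ℕ) [hp : Fact p.Prime] [CharP k p] [IsAlgClosed k] (hm : p = 2 * m + 1)
    {f : k[X]} (hg : f.natDegree = 2 * g + 1) (hf : Squarefree f) (i : ℕ) (hi : i < g)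
    (hz : ∀ u : k[X], u.degree < g → (u * f ^ m).coeff (i * p + (p - 1)) = 0) :
    {c : CommRing.Pic (Rg f) | c ^ p = 1}.Finite ∧
      {c : CommRing.Pic (Rg f) | c ^ p = 1}.ncard < p ^ g := by
  have ho : Odd f.natDegree := ⟨g, hg⟩
  have := dom ho
  have := charR p f
  have h0 : p ≠ 0 := hp.out.ne_zero
  have h2 := half (k := k) p m hm
  let H : Submodule k k[X] := degreeLT k g ⊓ LinearMap.ker (lcoeff k i)
  have fin1 : Module.Finite k (degreeLT k g) := Module.Finite.equiv (degreeLTEquiv k g).symm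
  have fin2 : Module.Finite k H := Submodule.finiteDimensional_of_le inf_le_left
  have hH : Module.finrank k H < g := by
    have lt : H < degreeLT k g := by
      refine lt_of_le_of_ne inf_le_left fun e => ?_
      have : (X ^ i : k[X]) ∈ H := by
        rw [e, mem_degreeLT, degree_X_pow]
        exact_mod_cast hi
      have := this.2
      simp at this
    have := Submodule.finrank_lt_finrank_of_lt lt
    rwa [(degreeLTEquiv k g).finrank_eq, Module.finrank_fin_fun] at this
  let L : k[X] →ₗ[k] k[X] := -((derivative ^ (p - 1)) ∘ₗ LinearMap.mulRight k (f ^ m))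
  obtain ⟨s1, s2⟩ := count p g L H hH
  have ex : ∀ c : {c : CommRing.Pic (Rg f) | c ^ p = 1},
      ∃ (I : (FractionalIdeal (Rg f)⁰ (FractionRing (Rg f)))ˣ) (e : Rg f)
      (x : (FractionRing (Rg f))ˣ) (w : Rg f),
      ClassGroup.mk (FractionRing (Rg f)) I = (ClassGroup.equivPic (Rg f)).symm c ∧
      (x : FractionRing (Rg f)) = algebraMap _ _ e ∧
      I ^ p = toPrincipalIdeal _ _ x ∧ D ((m + 1 : ℕ) : k) e = e * w := by
    rintro ⟨c, hc⟩
    obtain ⟨I, e, x, a1, a2, a3⟩ := rep p h0 ((ClassGroup.equivPic (Rg f)).symm c)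
      (by rw [← map_pow, hc, map_one])
    obtain ⟨w, hw⟩ := dvd_D p h2 I e x a2 a3
    exact ⟨I, e, x, w, a1, a2, a3, hw⟩
  choose I e x w a1 a2 a3 a4 using ex
  have he : ∀ c, e c ≠ 0 := fun c h => (x c).ne_zero (by rw [a2, h, map_zero])
  have lg := fun c => logD p m g hm hg (e c) (w c) (he c) (a4 c)
  let F : {c : CommRing.Pic (Rg f) | c ^ p = 1} → {u : k[X] | u ∈ H ∧ L u = u ^ p} := fun c =>
    ⟨(w c).re, ⟨mem_degreeLT.2 (lg c).2.1, by
      have t1 := congrArg (fun q => coeff q (i * p)) (lg c).2.2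
      simp only [coeff_iterate_derivative, hz _ (lg c).2.1, smul_zero, coeff_neg] at t1
      rw [← map_frobenius_expand p, coeff_map, coeff_expand_mul hp.out.pos, eq_comm, neg_eq_zero,
        frobenius_def] at t1
      exact pow_eq_zero_iff h0 |>.1 t1⟩, by
      simp only [L, LinearMap.neg_apply, LinearMap.comp_apply, LinearMap.mulRight_apply,
        Module.End.pow_apply, (lg c).2.2, neg_neg]⟩
  have hF : Function.Injective F := by
    intro c c' hcc
    have w1 : w c = w c' := by
      ext1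
      · exact congrArg Subtype.val hcc
      · rw [(lg c).1, (lg c').1]
    have d0 : D ((m + 1 : ℕ) : k) (e c * e c' ^ (p - 1)) = 0 := by
      rw [D_mul h2, D_pow h2 _ _ (a4 c'), a4 c, w1, Nat.cast_sub hp.out.one_le,
        CharP.cast_eq_zero]
      push_cast
      ring
    obtain ⟨b, hb⟩ := kerD p m hm _ d0
    have om : (omega : Rg f) ≠ 0 := fun h => by simpa using congrArg QuadraticAlgebra.im h
    have hb0 : b ≠ 0 := by
      rintro rfl
      rw [zero_pow h0] at hb
      exact mul_ne_zero (mul_ne_zero (he c) (pow_ne_zero _ (he c'))) (pow_ne_zero _ om) hb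
    have n1 : algebraMap (Rg f) (FractionRing (Rg f)) b ≠ 0 := by simpa using hb0
    have n2 : algebraMap (Rg f) (FractionRing (Rg f)) omega ≠ 0 := by simpa using om
    let γ : (FractionRing (Rg f))ˣ := Units.mk0 _ n1 * (Units.mk0 _ n2)⁻¹ * (x c')⁻¹
    have g1 : x c' * γ ^ p = x c := by
      have : (Units.mk0 _ n1) ^ p = x c * x c' ^ (p - 1) * (Units.mk0 _ n2) ^ p := by
        apply Units.ext
        simp only [Units.val_mul, Units.val_pow_eq_pow_val, Units.val_mk0, a2]
        rw [← map_pow, ← hb]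
        simp
      simp only [γ, mul_pow, inv_pow, this]
      rw [← mul_pow_sub_one h0 (x c')]
      generalize x c' ^ (p - 1) = s
      generalize (Units.mk0 _ n2) ^ p = t
      apply Units.ext
      simp only [Units.val_mul, Units.val_inv_eq_inv_val, mul_inv_rev]
      have := s.ne_zero
      have := t.ne_zero
      have := (x c').ne_zero
      field_simp
    have g2 := tf p m hm ho hf (I c' * toPrincipalIdeal _ _ γ * (I c)⁻¹) (by
      rw [mul_pow, mul_pow, inv_pow, a3, a3, ← map_pow, ← map_mul, g1, mul_inv_cancel])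
    have g3 : ClassGroup.mk (FractionRing (Rg f)) (I c') = ClassGroup.mk _ (I c) :=
      ClassGroup.mk_eq_mk.2 ⟨γ, mul_inv_eq_one.1 g2⟩
    rw [a1, a1] at g3
    exact Subtype.ext ((ClassGroup.equivPic (Rg f)).symm.injective g3).symm
  have := s1.to_subtype
  refine ⟨Set.finite_coe_iff.1 (Finite.of_injective F hF), lt_of_le_of_lt ?_ s2⟩
  rw [← Nat.card_coe_set_eq, ← Nat.card_coe_set_eq]
  exact Nat.card_le_card_of_injective F hF

end Pool.Agent.H.MP_2ca583_ag
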